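import Mathlib
import Pool.Agent.Y221.FQ.Tor

/-!
MP_45e720_ag, Q1: maps from complex tori and hyperbolicity, for the finite images of systems of
high powers, and of their covers.

Let `V = {F = 0}` in `ℙⁿ` be a projective variety given by sums of at most `s` powers of linear
forms, or by forms with at most `s` monomials and divisible exponents. We consider the images
`X = {Φ = 0}` of `V`, and of the finite covers `W = {Ψ = 0}` of subvarieties of `V`, under finite
morphisms with fibres of at most `r` points, where the exponents are at least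
`4 n 10 ^ s (r + 1) ^ 7`. No assumption is made on the singularities and the branch loci.

The definitions are in `Pool/Agent/Y221/FQ/Defs.lean` (`Mor`, `Onto`, `FibresLe`, `Entire`,
`Essential`, `AllGeneral`), `Pool/Agent/TH182/TC/Core.lean` (`TorusRigid`, `EllipticRigid`) and
`Pool/Agent/W602/GT/Cls.lean` (`HighPowers`).
-/

set_option autoImplicit false

namespace Pool.Agent.Results.MP_45e720_ag.FiniteImageTori

open Pool.Agent.W602.GT Pool.Agent.Y221.FQ
open Pool.Agent.TH182.TC (EllipticRigid TorusRigid)

/-- Every holomorphic map from the complex plane to `X = {Φ = 0}` is constant; every holomorphic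
map from the punctured unit disc to `X` extends to the disc; all closed subvarieties of positive
dimension of `X` are of general type. -/
def Hyp {M : ℕ} {μ : Type} (Φ : μ → MvPolynomial (Fin (M + 1)) ℂ) : Prop :=
  (∀ f, ¬ Entire Φ f) ∧ (∀ f, ¬ Essential Φ f) ∧ AllGeneral Φ

/-- Let `V = {F = 0}`, `s`, `N`, `r` be as above.

(1) Let `G : V → X = {Φ = 0}` be a surjective morphism with fibres of at most `r` points. If every
holomorphic map from a complex torus to `X` is constant, or only every holomorphic map from a
one-dimensional complex torus, then every holomorphic map from the complex plane to `X` is constant,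
every holomorphic map from the punctured disc to `X` extends, and all closed subvarieties of
positive dimension of `X` are of general type.

(2) If every holomorphic map from a one-dimensional complex torus to `V` is constant, then all this
holds for all varieties `X = {Φ = 0}` which are the image of some projective variety `W = {Ψ = 0}`
with a morphism `B : W → V` under a morphism `G : W → X` with fibres of at most `r` points. -/
theorem result {n M : ℕ} {ι μ : Type} {F : ι → MvPolynomial (Fin (n + 1)) ℂ}
    {Φ : μ → MvPolynomial (Fin (M + 1)) ℂ} {s N r : ℕ} (hF : HighPowers s N F) (hn : 1 ≤ n)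
    (hN : n * (4 * 10 ^ s * (r + 1) ^ 7) ≤ N) (hΦ : ∀ e, IsForm (Φ e)) :
    (∀ G : Fin (M + 1) → MvPolynomial (Fin (n + 1)) ℂ, Mor F Φ G → Onto F Φ G → FibresLe F G r →
      (TorusRigid Φ → EllipticRigid Φ) ∧ (EllipticRigid Φ → Hyp Φ)) ∧
    (EllipticRigid F → ∀ (m : ℕ) (κ : Type) (Ψ : κ → MvPolynomial (Fin (m + 1)) ℂ)
      (B : Fin (n + 1) → MvPolynomial (Fin (m + 1)) ℂ)
      (G : Fin (M + 1) → MvPolynomial (Fin (m + 1)) ℂ), (∀ e, IsForm (Ψ e)) → Mor Ψ F B →
      Mor Ψ Φ G → Onto Ψ Φ G → FibresLe Ψ G r → Hyp Φ) := by
  refine ⟨fun G hG hon hfib => ⟨fun h => h.elliptic, fun h => ?_⟩,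
    fun h m κ Ψ B G hΨ hB hG hon hfib =>
      hyp_cover hΨ hB hG hon hfib hF hn hN (no_gm hF.form h)⟩
  have h1 := hyp_im hΦ hG hon hfib hF hn hN
  have h2 := no_gm hΦ h
  exact ⟨(h1.out 0 3).2 h2, (h1.out 2 3).2 h2, (h1.out 1 3).2 h2⟩

end Pool.Agent.Results.MP_45e720_ag.FiniteImageTori
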