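import Pool.Agent.Y189.DC.Fin

/-!
# Maps from complex tori and entire curves given by linear functional equations

Let `X`, `Z` be complex projective algebraic sets. All nonconstant holomorphic maps from
one-dimensional complex tori to `X` have their image in `Z` if and only if for every nonconstant
entire curve in `X` which is not contained in `Z` the entire functions `σ`, such that the
homogeneous coordinates of the curve satisfy linear functional equations with respect to `σ`, are
translations by rational multiples of one complex number, and multiples of these are periods of the
curve. The definitions are in `Pool/Agent/Y189/DC`.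
-/

set_option autoImplicit false

namespace Pool.Agent.Results.MP_45e720_ag.FunctionalEquationCurves

open Filter MvPolynomial
open scoped LinearAlgebra.Projectivization
open Pool.Agent.TH143.EL (HolMap InV Rep TorusMapsIn)
open Pool.Agent.Y189.DC (NCE Base FunEq)

variable {N : ℕ}

/-- The entire curve `f` is given by linear functional equations with respect to `σ`: Here `σ` is a
nonconstant entire function, no iterate `σ^k`, `k > 0`, of which is the identity (`NCE σ`: `σ` is
entire and not constant). The curve has homogeneous coordinates `h j` which are meromorphic
functions on the plane, each of them satisfying a nontrivial linear functional equation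
`∑ a_k(z) h(σ^k(z)) = 0` (`FunEq σ U (h j)`), whose coefficients are polynomials in finitely many
meromorphic functions `u` in `U`. The field generated by `U` is closed under the composition with
`σ` and has transcendence degree at most one over the constants (`Base σ U`). -/
def FunctionalCurve (σ : ℂ → ℂ) (f : ℂ → ℙ ℂ (Fin (N + 1) → ℂ)) : Prop :=
  NCE σ ∧ (∀ k, 0 < k → ∃ z, σ^[k] z ≠ z) ∧ ∃ U : Set (ℂ → ℂ), Base σ U ∧
    ∃ h : Fin (N + 1) → ℂ → ℂ, (∀ j, Meromorphic (h j)) ∧ (∀ j, FunEq σ U (h j)) ∧
      ∀ᶠ z in codiscrete ℂ, Rep (f z) fun j => h j z

/-- For every nonconstant entire curve `f` in the projective algebraic set of `I`, which is not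
contained in the projective algebraic set of `I'`, there is a complex number `b` such that the
functions `σ`, with respect to which `f` is given by linear functional equations, are translations
`z ↦ z + r b`, `r` rational, and `k r b` is a period of `f` for some `k > 0`. So the curve is
contained in the algebraic set of `I'` or constant if `σ` is not a translation (for instance, for
`q`-difference equations, `σ(z) = q z`), or if there are such equations with respect to two
translations by complex numbers which are linearly independent over the rational numbers. -/
def FunctionalCurvesIn (I I' : Ideal (MvPolynomial (Fin (N + 1)) ℂ)) : Prop :=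
  ∀ f : ℂ → ℙ ℂ (Fin (N + 1) → ℂ), HolMap f → (∀ z, InV I (f z)) →
    (∃ z, ¬ InV I' (f z)) → (∃ z w, f z ≠ f w) → ∃ b : ℂ, ∀ σ, FunctionalCurve σ f →
      ∃ r : ℚ, (∀ z, σ z = z + r * b) ∧ ∃ k : ℕ, 0 < k ∧ ∀ z, f (z + k * (r * b)) = f z

/-- All nonconstant holomorphic maps from one-dimensional complex tori to `X` have their image in
`Z` if and only if the nonconstant entire curves in `X`, which are given by linear functional
equations and not contained in `Z`, only satisfy such equations with respect to translations by
rational multiples of one complex number, and are periodic. Here `X` and `Z` are the projective
algebraic sets of the ideals `I` and `I'`; for `I' = ⊤` the set `Z` is empty. -/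
theorem result (I I' : Ideal (MvPolynomial (Fin (N + 1)) ℂ)) :
    TorusMapsIn I I' ↔ FunctionalCurvesIn I I' :=
  Pool.Agent.Y189.DC.final I I'

end Pool.Agent.Results.MP_45e720_ag.FunctionalEquationCurves
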