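import Pool.Agent.Y192.FN.TorAll

/-!
MP_45e720_ag, Q1: maps from one-dimensional complex tori through the points of entire curves, for the
covers `w j ^ e j = F j (t 0 ^ m, …, t n ^ m)` of arbitrary closed subsets of projective space, `m`
large.

The points of the projective variety `X m` are given by vectors `u`, `v` with `Sol X m u v` and
`u ≠ 0`, up to `NSame`. `NMap`, `pht`, `canDeg` (in `NAlg`): maps from smooth projective curves to
`X m` in coordinates in the function field `M` of the curve, their degrees, and `2 g - 2`.
-/

set_option autoImplicit false

namespace Pool.Agent.Results.MP_45e720_ag.KummerTori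

open Metric Pool.Agent.Y192.FN

/-- Let `Z` be any closed subset of `P^n`, given by a homogeneous ideal `J` (it may be reducible, lie
in coordinate hyperplanes, and so on), let `F 1, …, F r` be arbitrary forms, and let `e 1, …, e r` be
positive numbers. There is a number `m0` with the following property. Let `m ≥ m0` be divisible by
the `e j`, and let `X m` be the projective variety with the equations `f (t 0 ^ m, …, t n ^ m) = 0`,
`f ∈ J`, and `w j ^ e j = F j (t 0 ^ m, …, t n ^ m)` in the weighted projective space with the
homogeneous coordinates `t i` and `w j`.

(1) All points of each nonconstant entire curve in `X m`, except countably many, lie on images of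
nonconstant holomorphic maps from one-dimensional complex tori to `X m`.

(2) Each holomorphic map from the punctured disc to `X m` extends to the disc, or all points of its
image, except countably many, lie on images of nonconstant holomorphic maps from one-dimensional
complex tori to `X m`.

(3) If all holomorphic maps from one-dimensional complex tori to `X m` are constant, then `X m` is
Brody hyperbolic (so it is Kobayashi hyperbolic), all holomorphic maps from the punctured disc to
`X m` extend, and `X m` is algebraically hyperbolic. -/
theorem result {n r : ℕ} (X : NDat n r) (hG : X.G = 1) :
    ∃ m0 : ℕ, ∀ m, m0 ≤ m → (∀ j, X.e j ∣ m) →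
      (∀ u v, NEnt X m u v → {z | ¬ OnTorus X m (u z) (v z)}.Countable) ∧
      (∀ u v, NDisc X m u v → NExt X m u v ∨
        {z | z ∈ ball (0 : ℂ) 1 \ {0} ∧ ¬ OnTorus X m (u z) (v z)}.Countable) ∧
      (NEll X m → NBro X m ∧ NPic X m ∧ NAlg X m) :=
  mainT_all X hG

end Pool.Agent.Results.MP_45e720_ag.KummerTori
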