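import Pool.Agent.Y190.PH.Tor

/-!
MP_45e720_ag, Q1, for the projective varieties of vectors whose `m`-th powers, for instance whose
squares, are the values of a polynomial of low degree at given constants.

`V = {F = 0}` is a closed subset of `P^N` such that for every point `x` of `V` there is a polynomial
`H` of degree at most `n` with `x i ^ m = H (a i)` for all `i`, and `H` is not divisible by the
`m`-th power of a polynomial of degree at least two (`AllSimple`). The last condition always holds
if `n < 2 m`; then `V` is any closed subset of a smooth complete intersection of dimension `n`.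

`TorusRigid F` and `EllipticRigid F`: every holomorphic map from a complex torus, or from a
one-dimensional complex torus, to `V` is constant. `Brody F`: every holomorphic map from the complex
plane to `V` is constant. `AlgHyp F`: `V` is algebraically hyperbolic. `NoLines F`: `V` contains no
line.
-/

set_option autoImplicit false

namespace Pool.Agent.Results.MP_45e720_ag.PolynomialValueTori

open FF Pool.Agent.W603.LV Pool.Agent.W603.PV Pool.Agent.W602.GT Pool.Agent.TH182.TC
  Pool.Agent.Y190.PH

theorem result {N n m : ℕ} (hm : 2 ≤ m) (hN : 4 * n < N + 1) (a : Fin (N + 1) → ℂ)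
    (ha : Function.Injective a) {ι : Type} (F : ι → MvPolynomial (Fin (N + 1)) ℂ)
    (hF : ∀ e, IsForm (F e)) (hS : AllSimple a n m F) :
    (TorusRigid F → EllipticRigid F) ∧ (EllipticRigid F → Brody F) ∧
      [Brody F, AlgHyp F, NoLines F].TFAE :=
  ⟨fun h => h.elliptic, fun h => ((hyp_tfae hm hN ha hF hS).out 0 2).2 (elliptic_noLines hF h),
    hyp_tfae hm hN ha hF hS⟩

end Pool.Agent.Results.MP_45e720_ag.PolynomialValueTori
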